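import Mathlib
import Pool.Agent.Helper533.CHo.Bd

/-!
# MP_10ce83_co: minimum out-degree at least `0.3445 n` forces a directed cycle of length at most 3
-/

set_option autoImplicit false
open Finset
open scoped Classical

namespace Pool.Agent.Results.MP_10ce83_co.TrianglePoint3445

open Pool.Agent.Helper533.CHo

/-- code of the relation between two vertices -/
noncomputable def rl {n : ℕ} (G : Digraph (Fin n)) (x y : Fin n) : ℕ :=
  if G.Adj x y then 1 else if G.Adj y x then 2 else 0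

theorem tr_aux : ∀ x < 3, ∀ y < 3, ∀ z < 3, tr (cd x y z) =
    if (x = 1 ∧ z = 1 ∧ y = 2) ∨ (x = 2 ∧ z = 2 ∧ y = 1) then 1 else 0 := by
  decide +kernel

theorem tr_table {x y z : ℕ} (hx : x < 3) (hy : y < 3) (hz : z < 3) : tr (cd x y z) = 0 ∨
    (x = 1 ∧ z = 1 ∧ y = 2) ∨ (x = 2 ∧ z = 2 ∧ y = 1) := by
  rw [tr_aux x hx y hy z hz]
  by_cases h : (x = 1 ∧ z = 1 ∧ y = 2) ∨ (x = 2 ∧ z = 2 ∧ y = 1)
  · exact Or.inr h
  · exact Or.inl (if_neg h)

theorem rl1 {n : ℕ} {G : Digraph (Fin n)} {x y : Fin n} (h : rl G x y = 1) : G.Adj x y := by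
  unfold rl at h
  by_cases h1 : G.Adj x y
  · exact h1
  · rw [if_neg h1] at h
    split_ifs at h <;> omega

theorem rl2 {n : ℕ} {G : Digraph (Fin n)} {x y : Fin n} (h : rl G x y = 2) : G.Adj y x := by
  unfold rl at h
  by_cases h1 : G.Adj y x
  · exact h1
  · rw [if_neg h1] at h
    split_ifs at h <;> omega

/-- **Result.** For every real `c ≥ 0.3445`, every loopless digraph on `n ≥ 1` vertices with all
out-degrees at least `c n` has a directed cycle of length `2` or `3`; so `c* ≤ 0.3445`. -/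
theorem result :
    ∀ c : ℝ, 3445 / 10000 ≤ c → ∀ n : ℕ, 0 < n → ∀ G : Digraph (Fin n), (∀ v, ¬ G.Adj v v) →
      (∀ v, c * (n : ℝ) ≤ ((Finset.univ.filter (fun w => G.Adj v w)).card : ℝ)) →
      ((∃ u v, G.Adj u v ∧ G.Adj v u) ∨ ∃ u v w, G.Adj u v ∧ G.Adj v w ∧ G.Adj w u) := by
  intro c hc n hn G hloop hdeg
  by_contra hcon
  push Not at hcon
  obtain ⟨hd, ht⟩ := hcon
  have hPr : ∀ x y : Fin n, Pr (rl G x y) (rl G y x) := by
    intro x y
    unfold rl Pr
    by_cases a : G.Adj x y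
    · have b := hd x y a
      simp [a, b]
    · by_cases b : G.Adj y x <;> simp [a, b]
  have hl : ∀ x y : Fin n, rl G x y < 3 := fun x y => Pr_lt (hPr x y)
  have hz : NoC3 (rl G) := by
    intro a b c
    rcases tr_table (hl a b) (hl a c) (hl b c) with h | ⟨h1, h2, h3⟩ | ⟨h1, h2, h3⟩
    · exact h
    · exact absurd (rl2 h3) (ht a b c (rl1 h1) (rl1 h2))
    · exact absurd (rl2 h1) (ht a c b (rl1 h3) (rl2 h2))
  have ho : ∀ a : Fin n, 3445 * Fintype.card (Fin n) ≤
      10000 * ∑ e : Fin n, (if rl G a e = 1 then 1 else 0) := by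
    intro a
    rw [Fintype.card_fin]
    have e1 : ∑ e : Fin n, (if rl G a e = 1 then 1 else 0) =
        (Finset.univ.filter (fun w => G.Adj a w)).card := by
      rw [Finset.card_filter]
      refine sum_congr rfl fun e _ => ?_
      by_cases h : G.Adj a e
      · rw [if_pos h, if_pos (by unfold rl; exact if_pos h)]
      · rw [if_neg h, if_neg (fun h' => h (rl1 h'))]
    rw [e1]
    have h1 := hdeg a
    have hn' : (0 : ℝ) ≤ n := Nat.cast_nonneg n
    have h2 : ((3445 * n : ℕ) : ℝ) ≤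
        ((10000 * (Finset.univ.filter (fun w => G.Adj a w)).card : ℕ) : ℝ) := by
      push_cast
      nlinarith
    exact_mod_cast h2
  have := main_aux (rl G) hPr hz ho
  rw [Fintype.card_fin] at this
  omega

end Pool.Agent.Results.MP_10ce83_co.TrianglePoint3445
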